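import Mathlib
import Pool.Agent.H394R3.ET.Stmts

set_option autoImplicit false

open Finset MeasureTheory

namespace Pool.Agent.H992R3.ET

open Pool.Agent.H394R3.ET

theorem taskFin : TaskFin := by
  intro P hP δ σ hA
  obtain ⟨c, C, T₀, hc, hC, hT₀, h⟩ := hA
  obtain ⟨T, hT, hTpos, hvol⟩ := hP (C / 2) T₀ (by linarith)
  obtain ⟨N, u, v, hN, huv, hdisj, hneg⟩ := h T hT (-1) (Or.inr rfl)
  have hsub : (⋃ i, Set.Ioo (u i) (v i)) ⊆ {x : ℝ | T ≤ x ∧ x ≤ 2 * T ∧ P x ≤ 0} := by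
    intro x hx
    obtain ⟨i, hi⟩ := Set.mem_iUnion.1 hx
    have h1 := huv i
    have h2 := hneg i x hi
    have h3 : 0 < c * T ^ σ := mul_pos hc (Real.rpow_pos_of_pos hTpos _)
    refine ⟨by linarith [hi.1, h1.1], by linarith [hi.2, h1.2.1], by linarith⟩
  have hle := (measure_mono hsub).trans hvol
  rw [measure_iUnion (fun i j hij => hdisj i j hij) (fun i => measurableSet_Ioo), tsum_fintype] at hle
  simp only [Real.volume_Ioo] at hle
  have hpos : ∀ i, 0 ≤ v i - u i := by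
    intro i
    have h1 := (huv i).2.2
    have h2 : 0 < C * T ^ δ := mul_pos hC (Real.rpow_pos_of_pos hTpos _)
    linarith
  rw [← ENNReal.ofReal_sum_of_nonneg (fun i _ => hpos i)] at hle
  have hle2 : ∑ i, (v i - u i) ≤ C / 2 * T := by
    rwa [ENNReal.ofReal_le_ofReal_iff (by positivity)] at hle
  have hge : (N : ℝ) * (C * T ^ δ) ≤ ∑ i, (v i - u i) := by
    calc (N : ℝ) * (C * T ^ δ) = ∑ _i : Fin N, (C * T ^ δ) := by simp
      _ ≤ ∑ i, (v i - u i) := Finset.sum_le_sum fun i _ => (huv i).2.2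
  have h4 : T ^ (1 - δ) * (C * T ^ δ) ≤ (N : ℝ) * (C * T ^ δ) := by
    apply mul_le_mul_of_nonneg_right hN
    positivity
  have h5 : T ^ (1 - δ) * (C * T ^ δ) = C * T := by
    rw [mul_comm C, ← mul_assoc, ← Real.rpow_add hTpos, sub_add_cancel, Real.rpow_one, mul_comm]
  nlinarith [mul_pos hC hTpos]

end Pool.Agent.H992R3.ET
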