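import Mathlib
import Pool.Agent.H394R3.ET.Stmts

set_option autoImplicit false

open Finset Filter

namespace Pool.Agent.H992R3.ET

open Pool.Agent.H394R3.ET
open Pool.Agent.H96R3.BC (CC)

theorem card_CC (Q J : ℕ) : ((CC Q J).card : ℝ) = ((J : ℝ) + 1) ^ (2 * Q) - (J : ℝ) ^ (2 * Q) := by
  unfold CC
  rw [Nat.card_Ioc, Nat.cast_sub (Nat.pow_le_pow_left (by omega) _)]
  push_cast
  ring

theorem card_CC_ge (Q J : ℕ) (hQ : 1 ≤ Q) : (J : ℝ) ^ (2 * Q - 1) ≤ ((CC Q J).card : ℝ) := by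
  rw [card_CC]
  obtain ⟨m, hm⟩ : ∃ m, 2 * Q = m + 1 := ⟨2 * Q - 1, by omega⟩
  rw [hm, Nat.add_sub_cancel]
  have hJ : (0 : ℝ) ≤ J := Nat.cast_nonneg J
  have h1 : (J : ℝ) ^ m ≤ ((J : ℝ) + 1) ^ m := pow_le_pow_left₀ hJ (by linarith) m
  have h2 : ((J : ℝ) + 1) ^ (m + 1) - (J : ℝ) ^ (m + 1) =
      (J : ℝ) * (((J : ℝ) + 1) ^ m - (J : ℝ) ^ m) + ((J : ℝ) + 1) ^ m := by ring
  rw [h2]
  have h3 : 0 ≤ (J : ℝ) * (((J : ℝ) + 1) ^ m - (J : ℝ) ^ m) := mul_nonneg hJ (by linarith)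
  linarith

theorem taskIneq : TaskIneq := by
  intro Q _ c K K₁ K₂ δ r hc hK hK₁ hK₂ hδ hδr hr hQ8
  have hQ8' : (8 : ℝ) ≤ Q := by exact_mod_cast hQ8
  have hr0 : 0 < r := by linarith
  set t : ℝ := 2 * Q * (r - δ) with ht
  have htpos : 0 < t := by
    have : 0 < r - δ := by linarith
    positivity
  -- a small constant
  obtain ⟨η, hη, hη1, hηA, hηB, hηC⟩ : ∃ η : ℝ, 0 < η ∧ η ≤ 1 ∧ 3 * K * η < c ∧ 6 * K₂ * η < c ∧
      3 * K₁ * η < c := by
    refine ⟨min 1 (min (c / (6 * K)) (min (c / (12 * K₂)) (c / (6 * K₁)))), by positivity,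
      min_le_left _ _, ?_, ?_, ?_⟩
    · have h : min 1 (min (c / (6 * K)) (min (c / (12 * K₂)) (c / (6 * K₁)))) ≤ c / (6 * K) :=
        (min_le_right _ _).trans (min_le_left _ _)
      calc 3 * K * _ ≤ 3 * K * (c / (6 * K)) := mul_le_mul_of_nonneg_left h (by positivity)
        _ = c / 2 := by field_simp; ring
        _ < c := by linarith
    · have h : min 1 (min (c / (6 * K)) (min (c / (12 * K₂)) (c / (6 * K₁)))) ≤ c / (12 * K₂) :=
        (min_le_right _ _).trans ((min_le_right _ _).trans (min_le_left _ _))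
      calc 6 * K₂ * _ ≤ 6 * K₂ * (c / (12 * K₂)) := mul_le_mul_of_nonneg_left h (by positivity)
        _ = c / 2 := by field_simp; ring
        _ < c := by linarith
    · have h : min 1 (min (c / (6 * K)) (min (c / (12 * K₂)) (c / (6 * K₁)))) ≤ c / (6 * K₁) :=
        (min_le_right _ _).trans ((min_le_right _ _).trans (min_le_right _ _))
      calc 3 * K₁ * _ ≤ 3 * K₁ * (c / (6 * K₁)) := mul_le_mul_of_nonneg_left h (by positivity)
        _ = c / 2 := by field_simp; ring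
        _ < c := by linarith
  have hlo1 := (isLittleO_log_rpow_atTop (r := t / 2) (by positivity)).bound hη
  have hlo2 := (isLittleO_log_rpow_atTop (r := 1) (by norm_num)).bound hη
  have hev := (tendsto_natCast_atTop_atTop (R := ℝ)).eventually (hlo1.and hlo2)
  obtain ⟨R₁, hR₁⟩ := Filter.eventually_atTop.1 hev
  refine ⟨max R₁ 3, ?_⟩
  intro R hR J hRJ hJR x hx1 hx2
  have hJ1 : R₁ ≤ J := (le_max_left _ _).trans (hR.trans hRJ)
  have hR3 : 3 ≤ R := (le_max_right _ _).trans hR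
  have hJ3 : 3 ≤ J := hR3.trans hRJ
  have hJ0 : (0 : ℝ) < J := by
    have : (3 : ℝ) ≤ J := by exact_mod_cast hJ3
    linarith
  have hJge1 : (1 : ℝ) ≤ J := by
    have : (3 : ℝ) ≤ J := by exact_mod_cast hJ3
    linarith
  have hR0 : (0 : ℝ) < R := by
    have : (3 : ℝ) ≤ R := by exact_mod_cast hR3
    linarith
  have hRJ' : (R : ℝ) ≤ J := by exact_mod_cast hRJ
  have hlogpos : 0 < Real.log J := Real.log_pos (by
    have : (3 : ℝ) ≤ J := by exact_mod_cast hJ3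
    linarith)
  obtain ⟨hl1, hl2⟩ := hR₁ J hJ1
  have hl1' : Real.log J ≤ η * (J : ℝ) ^ (t / 2) := by
    rw [Real.norm_of_nonneg hlogpos.le, Real.norm_of_nonneg (by positivity)] at hl1
    exact hl1
  have hl2' : Real.log J ≤ η * (J : ℝ) := by
    rw [Real.norm_of_nonneg hlogpos.le, Real.norm_of_nonneg (by positivity), Real.rpow_one] at hl2
    exact hl2
  set M : ℝ := ((CC Q J).card : ℝ) with hM
  have hMge : (J : ℝ) ^ (2 * Q - 1) ≤ M := card_CC_ge Q J (by omega)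
  have hMge' : (J : ℝ) ^ (2 * (Q : ℝ) - 1) ≤ M := by
    have : (J : ℝ) ^ (2 * (Q : ℝ) - 1) = (J : ℝ) ^ (2 * Q - 1) := by
      rw [← Real.rpow_natCast]
      congr 1
      rw [Nat.cast_sub (by omega)]
      push_cast
      ring
    rw [this]; exact hMge
  have hMpos : 0 < M := lt_of_lt_of_le (by positivity) hMge
  -- the right side is at least `J^(-2 Q δ) c M / log J`
  have hRHS : (J : ℝ) ^ (-(2 * Q * δ)) * (c * M / Real.log J) ≤
      ((R : ℝ) ^ (2 * Q)) ^ (-δ) * (c * M / Real.log J) := by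
    apply mul_le_mul_of_nonneg_right _ (by positivity)
    have e : ((R : ℝ) ^ (2 * Q)) ^ (-δ) = (R : ℝ) ^ (-(2 * Q * δ)) := by
      rw [← Real.rpow_natCast, ← Real.rpow_mul hR0.le]
      congr 1
      push_cast
      ring
    rw [e]
    exact Real.rpow_le_rpow_of_nonpos hR0 hRJ' (by
      have : 0 ≤ 2 * (Q : ℝ) * δ := by positivity
      linarith)
  refine lt_of_lt_of_le ?_ hRHS
  set E : ℝ := (J : ℝ) ^ (-(2 * Q * δ)) * (c * M / Real.log J) with hE
  have hEpos : 0 < E := by positivity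
  have hJδ : 0 < (J : ℝ) ^ (-(2 * Q * δ)) := Real.rpow_pos_of_pos hJ0 _
  -- basic relation
  have hJt : (J : ℝ) ^ (-(2 * Q * r)) = (J : ℝ) ^ (-(2 * Q * δ)) * (J : ℝ) ^ (-t) := by
    rw [← Real.rpow_add hJ0]; congr 1; rw [ht]; ring
  have hlog2 : (J : ℝ) ^ (-t) * (Real.log J) ^ 2 ≤ η := by
    have h1 : (Real.log J) ^ 2 ≤ η ^ 2 * (J : ℝ) ^ t := by
      calc (Real.log J) ^ 2 ≤ (η * (J : ℝ) ^ (t / 2)) ^ 2 :=
            pow_le_pow_left₀ hlogpos.le hl1' 2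
        _ = η ^ 2 * (J : ℝ) ^ t := by
            rw [mul_pow, ← Real.rpow_natCast ((J : ℝ) ^ (t / 2)), ← Real.rpow_mul hJ0.le]
            congr 2
            push_cast; ring
    calc (J : ℝ) ^ (-t) * (Real.log J) ^ 2 ≤ (J : ℝ) ^ (-t) * (η ^ 2 * (J : ℝ) ^ t) :=
          mul_le_mul_of_nonneg_left h1 (by positivity)
      _ = η ^ 2 := by
          rw [Real.rpow_neg hJ0.le]
          have : (J : ℝ) ^ t ≠ 0 := (Real.rpow_pos_of_pos hJ0 _).ne'
          field_simp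
      _ ≤ η := by nlinarith
  have hlog1 : (J : ℝ) ^ (-t) * Real.log J ≤ η := by
    have h1 : Real.log J ≤ η * (J : ℝ) ^ t := hl1'.trans (by
      apply mul_le_mul_of_nonneg_left _ hη.le
      exact Real.rpow_le_rpow_of_exponent_le hJge1 (by linarith))
    calc (J : ℝ) ^ (-t) * Real.log J ≤ (J : ℝ) ^ (-t) * (η * (J : ℝ) ^ t) :=
          mul_le_mul_of_nonneg_left h1 (by positivity)
      _ = η := by
          rw [Real.rpow_neg hJ0.le]
          have : (J : ℝ) ^ t ≠ 0 := (Real.rpow_pos_of_pos hJ0 _).ne'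
          field_simp
  -- first term
  have hT1 : K * M * (J : ℝ) ^ (-(2 * Q * r)) * Real.log J < E / 3 := by
    rw [hJt, hE]
    have h1 : K * M * ((J : ℝ) ^ (-(2 * Q * δ)) * (J : ℝ) ^ (-t)) * Real.log J =
        (J : ℝ) ^ (-(2 * Q * δ)) * M / Real.log J * (K * ((J : ℝ) ^ (-t) * (Real.log J) ^ 2)) := by
      field_simp
    have h2 : (J : ℝ) ^ (-(2 * Q * δ)) * (c * M / Real.log J) / 3 =
        (J : ℝ) ^ (-(2 * Q * δ)) * M / Real.log J * (c / 3) := by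
      field_simp
    rw [h1, h2]
    apply mul_lt_mul_of_pos_left _ (by positivity)
    have h3 : K * ((J : ℝ) ^ (-t) * (Real.log J) ^ 2) ≤ K * η := mul_le_mul_of_nonneg_left hlog2 hK.le
    linarith
  -- second term
  have hT2 : K₁ * (J : ℝ) ^ ((3 * (Q : ℝ) + 1) / 2) < E / 3 := by
    have h2 : (J : ℝ) ^ (-(2 * Q * δ)) * (c * M / Real.log J) / 3 =
        (J : ℝ) ^ (-(2 * Q * δ)) * M * (c / (3 * Real.log J)) := by
      field_simp
    rw [hE, h2]
    have h3 : (J : ℝ) ^ ((3 * (Q : ℝ) + 1) / 2) ≤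
        (J : ℝ) ^ (-(2 * Q * δ)) * M * (J : ℝ) ^ (-1 : ℝ) := by
      have h4 : (J : ℝ) ^ ((3 * (Q : ℝ) + 1) / 2) ≤
          (J : ℝ) ^ (-(2 * Q * δ)) * (J : ℝ) ^ (2 * (Q : ℝ) - 1) * (J : ℝ) ^ (-1 : ℝ) := by
        rw [← Real.rpow_add hJ0, ← Real.rpow_add hJ0]
        apply Real.rpow_le_rpow_of_exponent_le hJge1
        have h5 : δ ≤ 1 / 16 := by linarith
        nlinarith
      refine h4.trans ?_
      apply mul_le_mul_of_nonneg_right _ (by positivity)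
      exact mul_le_mul_of_nonneg_left hMge' hJδ.le
    have h6 : K₁ * (J : ℝ) ^ (-1 : ℝ) < c / (3 * Real.log J) := by
      rw [lt_div_iff₀ (by positivity), Real.rpow_neg_one]
      have h7 : (J : ℝ)⁻¹ * Real.log J ≤ η := by
        rw [inv_mul_le_iff₀ hJ0]
        linarith
      have h8 : K₁ * ((J : ℝ)⁻¹ * Real.log J) ≤ K₁ * η := mul_le_mul_of_nonneg_left h7 hK₁.le
      calc K₁ * (J : ℝ)⁻¹ * (3 * Real.log J) = 3 * (K₁ * ((J : ℝ)⁻¹ * Real.log J)) := by ring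
        _ ≤ 3 * (K₁ * η) := by linarith
        _ < c := by linarith
    calc K₁ * (J : ℝ) ^ ((3 * (Q : ℝ) + 1) / 2)
        ≤ K₁ * ((J : ℝ) ^ (-(2 * Q * δ)) * M * (J : ℝ) ^ (-1 : ℝ)) :=
          mul_le_mul_of_nonneg_left h3 hK₁.le
      _ = (J : ℝ) ^ (-(2 * Q * δ)) * M * (K₁ * (J : ℝ) ^ (-1 : ℝ)) := by ring
      _ < _ := mul_lt_mul_of_pos_left h6 (by positivity)
  -- third term
  have hT3 : K₂ * x ^ (1 - 1 / (2 * (Q : ℝ)) - r) < E / 3 := by
    set p : ℝ := 1 - 1 / (2 * (Q : ℝ)) - r with hp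
    have hQinv : 1 / (2 * (Q : ℝ)) ≤ 1 / 16 := by
      apply div_le_div_of_nonneg_left (by norm_num) (by norm_num)
      linarith
    have hQinv0 : 0 < 1 / (2 * (Q : ℝ)) := by positivity
    have hp0 : 0 < p := by rw [hp]; linarith
    have hp1 : p ≤ 1 := by rw [hp]; linarith
    have hxJ : x ≤ 2 * (J : ℝ) ^ (2 * Q) := by
      refine hx2.trans ?_
      have := pow_le_pow_left₀ hR0.le hRJ' (2 * Q)
      linarith
    have h1 : x ^ p ≤ 2 * (J : ℝ) ^ (2 * (Q : ℝ) - 1 - 2 * Q * r) := by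
      calc x ^ p ≤ (2 * (J : ℝ) ^ (2 * Q)) ^ p := Real.rpow_le_rpow (by linarith) hxJ hp0.le
        _ = 2 ^ p * ((J : ℝ) ^ (2 * Q)) ^ p := Real.mul_rpow (by norm_num) (by positivity)
        _ = 2 ^ p * (J : ℝ) ^ (2 * (Q : ℝ) - 1 - 2 * Q * r) := by
            congr 1
            rw [← Real.rpow_natCast, ← Real.rpow_mul hJ0.le]
            congr 1
            rw [hp]
            push_cast
            have : (Q : ℝ) ≠ 0 := by linarith
            field_simp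
        _ ≤ 2 * (J : ℝ) ^ (2 * (Q : ℝ) - 1 - 2 * Q * r) := by
            apply mul_le_mul_of_nonneg_right _ (by positivity)
            calc (2 : ℝ) ^ p ≤ 2 ^ (1 : ℝ) := Real.rpow_le_rpow_of_exponent_le (by norm_num) hp1
              _ = 2 := Real.rpow_one 2
    have h2 : (J : ℝ) ^ (2 * (Q : ℝ) - 1 - 2 * Q * r) ≤
        M * ((J : ℝ) ^ (-(2 * Q * δ)) * (J : ℝ) ^ (-t)) := by
      rw [← hJt]
      have : (J : ℝ) ^ (2 * (Q : ℝ) - 1 - 2 * Q * r) =
          (J : ℝ) ^ (2 * (Q : ℝ) - 1) * (J : ℝ) ^ (-(2 * Q * r)) := by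
        rw [← Real.rpow_add hJ0]; congr 1
      rw [this]
      exact mul_le_mul_of_nonneg_right hMge' (by positivity)
    have h3 : (J : ℝ) ^ (-(2 * Q * δ)) * (c * M / Real.log J) / 3 =
        (J : ℝ) ^ (-(2 * Q * δ)) * M / Real.log J * (c / 3) := by
      field_simp
    rw [hE, h3]
    calc K₂ * x ^ p ≤ K₂ * (2 * (M * ((J : ℝ) ^ (-(2 * Q * δ)) * (J : ℝ) ^ (-t)))) := by
          apply mul_le_mul_of_nonneg_left _ hK₂.le
          linarith
      _ = (J : ℝ) ^ (-(2 * Q * δ)) * M / Real.log J * (2 * K₂ * ((J : ℝ) ^ (-t) * Real.log J)) := by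
          field_simp
      _ < (J : ℝ) ^ (-(2 * Q * δ)) * M / Real.log J * (c / 3) := by
          apply mul_lt_mul_of_pos_left _ (by positivity)
          have h5 : 2 * K₂ * ((J : ℝ) ^ (-t) * Real.log J) ≤ 2 * K₂ * η :=
            mul_le_mul_of_nonneg_left hlog1 (by positivity)
          linarith
  linarith

end Pool.Agent.H992R3.ET
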