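import Mathlib
import Pool.Agent.H394R3.ET.Stmts
import Pool.Agent.H886R3.TaskEMB

set_option autoImplicit false

open Finset

namespace Pool.Agent.H992R3.ET

open Pool.Agent.H394R3.ET

theorem step_ineq (r : ℝ) (hr : 0 < r) (k : ℕ) (hk : 1 ≤ k) :
    ((k + 1 : ℕ) : ℝ) ^ (-(1 + r)) ≤ 1 / r * ((k : ℝ) ^ (-r) - ((k + 1 : ℕ) : ℝ) ^ (-r)) := by
  have hk0 : (0 : ℝ) < k := by exact_mod_cast hk
  set y : ℝ := ((k + 1 : ℕ) : ℝ) with hy
  have hyk : (k : ℝ) = y * (1 - 1 / y) := by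
    have : y ≠ 0 := by rw [hy]; positivity
    field_simp
    rw [hy]; push_cast; ring
  have hy0 : 0 < y := by rw [hy]; positivity
  have h1y : 0 < 1 - 1 / y := by
    have : 0 < y * (1 - 1 / y) := by rw [← hyk]; exact hk0
    exact (mul_pos_iff_of_pos_left hy0).1 this
  have h1 : (k : ℝ) ^ (-r) = y ^ (-r) * (1 - 1 / y) ^ (-r) := by
    rw [hyk, Real.mul_rpow hy0.le h1y.le]
  have h2 : 1 + r / y ≤ (1 - 1 / y) ^ (-r) := by
    rw [Real.rpow_def_of_pos h1y]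
    have h3 : Real.log (1 - 1 / y) ≤ -(1 / y) := by
      have := Real.log_le_sub_one_of_pos h1y
      linarith
    have h4 : r / y ≤ Real.log (1 - 1 / y) * -r := by
      have : Real.log (1 - 1 / y) * r ≤ -(1 / y) * r := mul_le_mul_of_nonneg_right h3 hr.le
      have e : r / y = 1 / y * r := by ring
      rw [e]; linarith
    have h5 := Real.add_one_le_exp (Real.log (1 - 1 / y) * -r)
    linarith
  have h6 : y ^ (-(1 + r)) = y ^ (-r) * (1 / y) := by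
    rw [neg_add, add_comm, Real.rpow_add hy0, Real.rpow_neg_one, one_div]
  rw [h1, h6]
  have h7 : 0 < y ^ (-r) := Real.rpow_pos_of_pos hy0 _
  have h8 : y ^ (-r) * (1 + r / y) ≤ y ^ (-r) * (1 - 1 / y) ^ (-r) :=
    mul_le_mul_of_nonneg_left h2 h7.le
  rw [one_div r, ← div_eq_inv_mul, le_div_iff₀ hr]
  calc y ^ (-r) * (1 / y) * r = y ^ (-r) * (1 + r / y) - y ^ (-r) := by ring
    _ ≤ _ := by linarith

theorem sum_bound (r : ℝ) (hr : 0 < r) (N : ℕ) (hN : 1 ≤ N) :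
    ∑ k ∈ (Icc 1 N).erase 1, (k : ℝ) ^ (-(1 + r)) ≤ 1 / r * (1 - (N : ℝ) ^ (-r)) := by
  induction N, hN using Nat.le_induction with
  | base => simp
  | succ n hn ih =>
    have e : (Icc 1 (n + 1)).erase 1 = insert (n + 1) ((Icc 1 n).erase 1) := by
      ext a
      simp only [mem_erase, mem_Icc, mem_insert]
      omega
    rw [e, Finset.sum_insert (by simp)]
    have h1 := step_ineq r hr n hn
    have h2 : 1 / r * (1 - ((n + 1 : ℕ) : ℝ) ^ (-r)) = 1 / r * (1 - (n : ℝ) ^ (-r)) +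
        1 / r * ((n : ℝ) ^ (-r) - ((n + 1 : ℕ) : ℝ) ^ (-r)) := by ring
    rw [h2]
    linarith

theorem taskProd : TaskProd := by
  intro a g K θ r X hK hθ hr hg1 hg ha x hx hxX
  show |Pool.Agent.H13R3.EM.EE (Pool.Agent.H13R3.EM.cv g a) x - Pool.Agent.H13R3.EM.EE a x| ≤ _
  rw [Pool.Agent.H886R3.EMB.EE_cv]
  have hfl : 1 ≤ ⌊x⌋₊ := Nat.one_le_floor_iff x |>.2 hx
  have hmem : (1 : ℕ) ∈ Icc 1 ⌊x⌋₊ := by simp [hfl]
  rw [← Finset.add_sum_erase _ _ hmem]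
  have e1 : g 1 * Pool.Agent.H13R3.EM.EE a (x / ((1 : ℕ) : ℝ)) = Pool.Agent.H13R3.EM.EE a x := by
    rw [hg1]; simp
  rw [e1, add_sub_cancel_left]
  have hx0 : 0 < x := by linarith
  have hterm : ∀ k ∈ (Icc 1 ⌊x⌋₊).erase 1,
      |g k * Pool.Agent.H13R3.EM.EE a (x / k)| ≤ K * x ^ θ * (k : ℝ) ^ (-(1 + r)) := by
    intro k hk
    simp only [mem_erase, mem_Icc] at hk
    have hk2 : 2 ≤ k := by omega
    have hk2' : (2 : ℝ) ≤ k := by exact_mod_cast hk2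
    have hk0 : (0 : ℝ) < k := by linarith
    have hkx : (k : ℝ) ≤ x := (Nat.le_floor_iff hx0.le).1 hk.2.2
    have h1 : 1 ≤ x / k := by rw [le_div_iff₀ hk0]; linarith
    have h2 : x / k ≤ X / 2 := by
      calc x / k ≤ x / 2 := div_le_div_of_nonneg_left hx0.le (by norm_num) hk2'
        _ ≤ X / 2 := by linarith
    have h3 := ha (x / k) h1 h2
    have h4 := hg k (by omega)
    rw [abs_mul]
    calc |g k| * |Pool.Agent.H13R3.EM.EE a (x / k)| ≤ (k : ℝ) ^ (-(1 - θ + r)) * (K * (x / k) ^ θ) :=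
          mul_le_mul h4 h3 (abs_nonneg _) (by positivity)
      _ = K * x ^ θ * (k : ℝ) ^ (-(1 + r)) := by
          rw [Real.div_rpow hx0.le hk0.le]
          have e : (k : ℝ) ^ (-(1 - θ + r)) = (k : ℝ) ^ (-(1 + r)) * (k : ℝ) ^ θ := by
            rw [← Real.rpow_add hk0]; congr 1; ring
          rw [e]
          have : (k : ℝ) ^ θ ≠ 0 := (Real.rpow_pos_of_pos hk0 _).ne'
          field_simp
  calc |∑ k ∈ (Icc 1 ⌊x⌋₊).erase 1, g k * Pool.Agent.H13R3.EM.EE a (x / k)|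
      ≤ ∑ k ∈ (Icc 1 ⌊x⌋₊).erase 1, |g k * Pool.Agent.H13R3.EM.EE a (x / k)| :=
        Finset.abs_sum_le_sum_abs _ _
    _ ≤ ∑ k ∈ (Icc 1 ⌊x⌋₊).erase 1, K * x ^ θ * (k : ℝ) ^ (-(1 + r)) := Finset.sum_le_sum hterm
    _ = K * x ^ θ * ∑ k ∈ (Icc 1 ⌊x⌋₊).erase 1, (k : ℝ) ^ (-(1 + r)) := by rw [Finset.mul_sum]
    _ ≤ K * x ^ θ * (1 / r * (1 - (⌊x⌋₊ : ℝ) ^ (-r))) :=
        mul_le_mul_of_nonneg_left (sum_bound r hr _ hfl) (by positivity)
    _ ≤ K * x ^ θ * (1 + 1 / r) := by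
        apply mul_le_mul_of_nonneg_left _ (by positivity)
        have h5 : 0 ≤ (⌊x⌋₊ : ℝ) ^ (-r) := by positivity
        have h6 : 0 < 1 / r := by positivity
        nlinarith
    _ = K * (1 + 1 / r) * x ^ θ := by ring

end Pool.Agent.H992R3.ET
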